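import Pool.Agent.Q264.LK.Asm
import Pool.Agent.Q264.LK.Asm2
import Pool.Agent.Q264.LK.UP2
import Pool.Agent.Q154.LK.BR
import Pool.Agent.Q65.LK2.FOR
import Pool.Agent.Q65.LK2.CCB
import Pool.Agent.Q182.LK.LOW
import Pool.Agent.Q121.LK.EP
import Pool.Agent.Q121.LK.GRID
import Pool.Agent.Q121.LK.IID
import Pool.Agent.Q121.LK.BLOCK
import Pool.Agent.Q121.LK.SAW
import Pool.Agent.Q153.LKC.MKD
import Pool.Agent.Q153.LKC.DECR
import Pool.Agent.Q25.LK.Girth
import Pool.Agent.Q25.LK.Bnd
import Pool.Agent.Q162.LK264.UP1

/-!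
# MP_cfbcde_co: optimal stopping for components on maximal `k`-degenerate graphs

Answer to Q1: `L_k = 1 / (4 k)` for every `k ≥ 1` (the case `k = 1` was known).

Sketch of the proof.  Lower bound: stop after `n / (2k)` vertices; the number of components is at least the number of
active vertices minus the number of edges between them.  Upper bound: the graph is a clique on `k` vertices and `L`
copies of a layered graph; in a layered graph with layers `Γ` (a finite group) the vertex `(i, x)` is joined to
`(i + 1, g_j x)`, `j < k`, and the vertices of the bottom layer are joined to the clique.  For suitable `Γ` and `g_j` the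
layered graph has large girth.  When every vertex is active with probability `p`, independently, the expected number of
components is at most `(p - k p²) |V| + o(|V|)` for `p` up to a value close to `1 / (2k - 1)`, since small components are
trees and large ones are rare, and for larger `p` the probability that a given small tree is a component decreases.  As
the copies are independent, the number of components is concentrated at all times simultaneously.
-/

set_option autoImplicit false

open Filter Topology

namespace Pool.Agent.Results.MP_cfbcde_co.StoppingLimit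

/-- `G` is `k`-degenerate: every nonempty set `S` of vertices has a vertex with at most `k` neighbours in `S` -/
def IsDegenerate (k : ℕ) {V : Type} (G : SimpleGraph V) : Prop :=
  ∀ S : Finset V, S.Nonempty → ∃ v ∈ S, {w | w ∈ S ∧ G.Adj v w}.ncard ≤ k

/-- `G` is maximal `k`-degenerate: it is `k`-degenerate and no graph with more edges on the same vertices is -/
def IsMaxDegenerate (k : ℕ) {V : Type} (G : SimpleGraph V) : Prop :=
  IsDegenerate k G ∧ ∀ H : SimpleGraph V, G ≤ H → IsDegenerate k H → H = G

/-- the set of the first `t` vertices `σ(0), …, σ(t-1)` of the ordering `σ` -/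
def active {n : ℕ} (σ : Equiv.Perm (Fin n)) (t : ℕ) : Set (Fin n) :=
  {v | ∃ i : Fin n, i.val < t ∧ σ i = v}

/-- `CC(σ, t)`, the number of connected components of the graph induced on the first `t` vertices -/
noncomputable def components {n : ℕ} (G : SimpleGraph (Fin n)) (σ : Equiv.Perm (Fin n)) (t : ℕ) : ℕ :=
  Nat.card (G.induce (active σ t)).ConnectedComponent

/-- stopping algorithms: the time is in `{1, …, n}`, and it is `t` for `σ'` if it is `t` for `σ` and the two
orderings have the same first `t` vertices -/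
def IsStopping {n : ℕ} (A : Equiv.Perm (Fin n) → ℕ) : Prop :=
  (∀ σ, 1 ≤ A σ ∧ A σ ≤ n) ∧
    ∀ σ σ' : Equiv.Perm (Fin n), (∀ i : Fin n, i.val < A σ → σ' i = σ i) → A σ' = A σ

/-- `CC_G(A)`, the mean number of components when `A` stops, for a uniformly random ordering -/
noncomputable def value {n : ℕ} (G : SimpleGraph (Fin n)) (A : Equiv.Perm (Fin n) → ℕ) : ℝ :=
  (∑ σ : Equiv.Perm (Fin n), (components G σ (A σ) : ℝ)) / (n.factorial : ℝ)

/-- `m(G)`, the supremum (a maximum for `n ≥ 1`) of the values of the stopping algorithms -/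
noncomputable def best {n : ℕ} (G : SimpleGraph (Fin n)) : ℝ :=
  sSup {x | ∃ A, IsStopping A ∧ x = value G A}

/-- the infimum of `m(G) / |G|` over the maximal `k`-degenerate graphs with at least `N` vertices -/
noncomputable def infRatio (k N : ℕ) : ℝ :=
  sInf {x | ∃ n, N ≤ n ∧ ∃ G : SimpleGraph (Fin n), IsMaxDegenerate k G ∧ x = best G / n}

theorem deg_iff (k : ℕ) {V : Type} (G : SimpleGraph V) :
    Pool.Agent.Q264.LK.KDeg k G ↔ IsDegenerate k G := by
  classical
  unfold Pool.Agent.Q264.LK.KDeg IsDegenerate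
  refine forall_congr' fun S => forall_congr' fun _ => exists_congr fun v => and_congr_right fun _ => ?_
  rw [← Set.ncard_coe_finset]
  have : ((S.filter fun w => G.Adj v w : Finset V) : Set V) = {w | w ∈ S ∧ G.Adj v w} := by
    ext w; simp
  rw [← this]

theorem max_iff (k : ℕ) {V : Type} (G : SimpleGraph V) :
    Pool.Agent.Q264.LK.MaxKDeg k G ↔ IsMaxDegenerate k G := by
  unfold Pool.Agent.Q264.LK.MaxKDeg IsMaxDegenerate
  rw [deg_iff]
  simp only [deg_iff]

theorem inf_eq (k N : ℕ) : Pool.Agent.Q264.LK.LL k N = infRatio k N := by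
  unfold Pool.Agent.Q264.LK.LL infRatio
  simp only [max_iff]
  rfl

/-- **`L_k = 1 / (4 k)`.** -/
theorem result : ∀ k : ℕ, 1 ≤ k → Tendsto (infRatio k) atTop (𝓝 (1 / (4 * (k : ℝ)))) := by
  have hEDGE := Pool.Agent.Q264.LK.t_EDGE
  have hMOM := Pool.Agent.Q264.LK.t_MOM
  have hBR := Pool.Agent.Q154.LK.t_BR
  have hFOR := Pool.Agent.Q65.LK2.t_FOR
  have hLOW := Pool.Agent.Q182.LK.t_LOW hEDGE hFOR
  have hBLOCK := Pool.Agent.Q121.LK.BLOCK.t_BLOCK Pool.Agent.Q121.LK.t_GRID Pool.Agent.Q121.LK.t_IID
    Pool.Agent.Q121.LK.t_EP Pool.Agent.Q65.LK2.t_CCB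
  have hMKD := Pool.Agent.Q153.LKC.t_MKD hEDGE
  have hUP1 := Pool.Agent.Q162.LK264.UP1.t_UP1 hBR
  have hUP2 := Pool.Agent.Q264.LK.t_UP2 hUP1 Pool.Agent.Q121.LK.SAW.t_SAW hMOM
  have hDECR := Pool.Agent.Q153.LKC.t_DECR hBR hMOM Pool.Agent.Q25.LK.t_BND
  have hFINH := Pool.Agent.Q264.LK.t_FINH Pool.Agent.Q25.LK.t_GIRTH hUP2 hDECR
  have hMAIN := Pool.Agent.Q264.LK.t_MAIN hLOW (Pool.Agent.Q264.LK.t_UPP hFINH hBLOCK hMKD)
  intro k hk
  have h := hMAIN k hk
  have e : Pool.Agent.Q264.LK.LL k = infRatio k := funext fun N => inf_eq k N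
  rwa [e] at h

end Pool.Agent.Results.MP_cfbcde_co.StoppingLimit
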